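import Mathlib
import Pool.Agent.D0H67.SUB.Stm

/-!
# Project SUB, module BETA: Crapo's beta invariant of a connected matroid is not zero
-/

set_option autoImplicit false

namespace Pool.Agent.D0H25.SUB

open Finset

variable {ι : Type} [DecidableEq ι]

/-- the axioms of a rank function -/
structure Ax (r : Finset ι → ℤ) : Prop where
  emp : r ∅ = 0
  inc : ∀ (J : Finset ι) (i : ι), r J ≤ r (insert i J) ∧ r (insert i J) ≤ r J + 1
  sub : ∀ J J' : Finset ι, r (J ∪ J') + r (J ∩ J') ≤ r J + r J'

/-- connectedness -/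
def Conn (r : Finset ι → ℤ) (I : Finset ι) : Prop := I.Nonempty ∧ (∀ i ∈ I, r {i} = 1) ∧
  ∀ J ⊆ I, J.Nonempty → (I \ J).Nonempty → r I < r J + r (I \ J)

/-- the sign -/
def sg (n : ℤ) : ℤ := if Even n then 1 else -1

theorem sg_sub_one (n : ℤ) : sg (n - 1) = -sg n := by
  unfold sg
  by_cases h : Even n
  · rw [if_pos h, if_neg]
    rw [Int.even_sub_one]
    exact not_not.2 h
  · rw [if_neg h, if_pos (Int.even_sub_one.2 h)]
    rfl

/-- the alternating sum -/
def sm (r : Finset ι → ℤ) (I : Finset ι) : ℤ := ∑ J ∈ I.powerset, (-1 : ℤ) ^ J.card * r J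

theorem Ax.mono {r : Finset ι → ℤ} (h : Ax r) {J J' : Finset ι} (hJ : J ⊆ J') : r J ≤ r J' := by
  have key : ∀ K : Finset ι, r J ≤ r (J ∪ K) := by
    intro K
    induction K using Finset.induction_on with
    | empty => rw [union_empty]
    | insert a K _ ih =>
      rw [union_insert]
      exact ih.trans (h.inc _ a).1
  have := key J'
  rwa [union_eq_right.2 hJ] at this

/-- the contraction -/
def con (r : Finset ι → ℤ) (i : ι) (J : Finset ι) : ℤ := r (insert i J) - r {i}

theorem Ax.con {r : Finset ι → ℤ} (h : Ax r) (i : ι) : Ax (con r i) := by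
  refine ⟨?_, fun J j => ?_, fun J J' => ?_⟩
  · unfold SUB.con
    rw [insert_empty_eq, sub_self]
  · unfold SUB.con
    rw [insert_comm]
    have := h.inc (insert i J) j
    constructor <;> linarith [this.1, this.2]
  · unfold SUB.con
    have := h.sub (insert i J) (insert i J')
    rw [← insert_union_distrib, ← insert_inter_distrib] at this
    linarith

theorem sm_insert (r : Finset ι → ℤ) {i : ι} {I : Finset ι} (hi : i ∉ I) (hI : I.Nonempty) :
    sm r (insert i I) = sm r I - sm (con r i) I := by
  unfold sm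
  rw [sum_powerset_insert hi, sub_eq_add_neg, ← sum_neg_distrib]
  congr 1
  have h0 : ∑ J ∈ I.powerset, (-1 : ℤ) ^ J.card * r {i} = 0 := by
    rw [← sum_mul, sum_powerset_neg_one_pow_card_of_nonempty hI, zero_mul]
  have h1 : ∑ J ∈ I.powerset, -((-1 : ℤ) ^ J.card * con r i J) =
      ∑ J ∈ I.powerset, (-((-1 : ℤ) ^ J.card * con r i J) - (-1 : ℤ) ^ J.card * r {i}) := by
    rw [sum_sub_distrib, h0, sub_zero]
  rw [h1]
  refine sum_congr rfl fun J hJ => ?_
  have hiJ : i ∉ J := fun h => hi (mem_powerset.1 hJ h)
  rw [card_insert_of_notMem hiJ, con, pow_succ]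
  ring

theorem key {r : Finset ι → ℤ} (h : Ax r) {i : ι} {I : Finset ι} (hi : i ∉ I)
    (hC : Conn r (insert i I)) {X Y : Finset ι} (hX : X ⊆ I) :
    r (insert i I) + (if (X ∩ Y).Nonempty then 1 else 0) ≤
      r (X ∩ Y) + r (insert i ((I \ X) ∪ (I \ Y))) := by
  have e : insert i ((I \ X) ∪ (I \ Y)) = insert i I \ (X ∩ Y) := by
    ext x
    simp only [mem_insert, mem_union, mem_sdiff, mem_inter]
    constructor
    · rintro (rfl | h1 | h1)
      · exact ⟨Or.inl rfl, fun h2 => hi (hX h2.1)⟩
      · exact ⟨Or.inr h1.1, fun h2 => h1.2 h2.1⟩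
      · exact ⟨Or.inr h1.1, fun h2 => h1.2 h2.2⟩
    · rintro ⟨rfl | h1, h2⟩
      · exact Or.inl rfl
      · by_cases hx : x ∈ X
        · exact Or.inr (Or.inr ⟨h1, fun hy => h2 ⟨hx, hy⟩⟩)
        · exact Or.inr (Or.inl ⟨h1, hx⟩)
  rw [e]
  split_ifs with hne
  · have h1 : X ∩ Y ⊆ insert i I := (inter_subset_left.trans hX).trans (subset_insert _ _)
    have h2 : (insert i I \ (X ∩ Y)).Nonempty :=
      ⟨i, mem_sdiff.2 ⟨mem_insert_self _ _, fun h3 => hi (hX (mem_inter.1 h3).1)⟩⟩
    have := hC.2.2 _ h1 hne h2
    linarith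
  · rw [not_nonempty_iff_eq_empty] at hne
    rw [hne, sdiff_empty, h.emp]
    linarith

theorem pair {r : Finset ι → ℤ} (h : Ax r) {i : ι} {I : Finset ι} (hi : i ∉ I)
    (hC : Conn r (insert i I)) {X Y : Finset ι} (hX : X ⊆ I) (hY : Y ⊆ I)
    (h1 : r X + r (I \ X) ≤ r (insert i I))
    (h2 : r (insert i Y) + r (insert i (I \ Y)) ≤ r (insert i I) + 1) :
    ¬ (X ∩ Y).Nonempty ∨ ¬ ((I \ X) ∩ (I \ Y)).Nonempty := by
  by_contra hcon
  push Not at hcon
  obtain ⟨c1, c2⟩ := hcon
  have k1 := key h hi hC (Y := Y) hX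
  have k2 := key h hi hC (X := I \ X) (Y := I \ Y) sdiff_subset
  rw [if_pos c1] at k1
  rw [if_pos c2, Finset.sdiff_sdiff_eq_self hX, Finset.sdiff_sdiff_eq_self hY] at k2
  have s1 := h.sub X (insert i Y)
  have s2 := h.sub (I \ X) (insert i (I \ Y))
  have hiX : i ∉ X := fun hx => hi (hX hx)
  have hiX' : i ∉ I \ X := fun hx => hi (mem_sdiff.1 hx).1
  rw [union_insert, inter_insert_of_notMem hiX] at s1
  rw [union_insert, inter_insert_of_notMem hiX'] at s2
  linarith

theorem conn_split {r : Finset ι → ℤ} (h : Ax r) {i : ι} {I : Finset ι} (hi : i ∉ I)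
    (hI : I.Nonempty) (hr : r (insert i I) = r I) (hC : Conn r (insert i I)) :
    Conn r I ∨ Conn (con r i) I := by
  by_contra hcon
  push Not at hcon
  obtain ⟨n1, n2⟩ := hcon
  have hi1 : r {i} = 1 := hC.2.1 i (mem_insert_self _ _)
  have a : ∃ X ⊆ I, X.Nonempty ∧ (I \ X).Nonempty ∧ r X + r (I \ X) ≤ r (insert i I) := by
    by_contra ha
    push Not at ha
    refine n1 ⟨hI, fun j hj => hC.2.1 j (mem_insert_of_mem hj), fun J hJ h1 h2 => ?_⟩
    have := ha J hJ h1 h2
    rwa [hr] at this
  obtain ⟨X, hX, x1, x2, x3⟩ := a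
  have b : ∃ Y ⊆ I, Y.Nonempty ∧ (I \ Y).Nonempty ∧
      r (insert i Y) + r (insert i (I \ Y)) ≤ r (insert i I) + 1 := by
    by_cases hl : ∀ j ∈ I, con r i {j} = 1
    · by_contra hb
      push Not at hb
      refine n2 ⟨hI, hl, fun J hJ h1 h2 => ?_⟩
      have := hb J hJ h1 h2
      unfold con
      linarith
    · push Not at hl
      obtain ⟨j, hj, hj1⟩ := hl
      have hc := h.con i
      have h3 := hc.inc ∅ j
      rw [insert_empty_eq, hc.emp] at h3
      have h4 : con r i {j} = 0 := by
        have := h3.1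
        have := h3.2
        omega
      have h5 : (I \ {j}).Nonempty := by
        by_contra h6
        rw [not_nonempty_iff_eq_empty, sdiff_eq_empty_iff_subset] at h6
        obtain ⟨x, hx⟩ := x1
        obtain ⟨y, hy⟩ := x2
        have hxj := mem_singleton.1 (h6 (hX hx))
        have hyj := mem_singleton.1 (h6 (mem_sdiff.1 hy).1)
        exact (mem_sdiff.1 hy).2 (by rw [hyj, ← hxj]; exact hx)
      refine ⟨{j}, singleton_subset_iff.2 hj, singleton_nonempty j, h5, ?_⟩
      unfold con at h4
      have h6 : r (insert i (I \ {j})) ≤ r (insert i I) :=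
        h.mono (insert_subset_insert _ sdiff_subset)
      linarith
  obtain ⟨Y, hY, y1, y2, y3⟩ := b
  have p1 := pair h hi hC hX hY x3 y3
  have p2 := pair h hi hC (X := X) (Y := I \ Y) hX sdiff_subset x3 (by
    rw [Finset.sdiff_sdiff_eq_self hY]
    linarith)
  rw [Finset.sdiff_sdiff_eq_self hY] at p2
  simp only [not_nonempty_iff_eq_empty] at p1 p2
  have m : ∀ {P Q Z : Finset ι}, P ⊆ I → P ∩ Z = ∅ → P ∩ (I \ Z) = ∅ → ¬ P.Nonempty := by
    intro P Q Z hP e1 e2 hne
    obtain ⟨x, hx⟩ := hne
    by_cases hz : x ∈ Z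
    · have : x ∈ P ∩ Z := mem_inter.2 ⟨hx, hz⟩
      rw [e1] at this
      exact notMem_empty x this
    · have : x ∈ P ∩ (I \ Z) := mem_inter.2 ⟨hx, mem_sdiff.2 ⟨hP hx, hz⟩⟩
      rw [e2] at this
      exact notMem_empty x this
  rcases p1 with p1 | p1 <;> rcases p2 with p2 | p2
  · exact m (Q := ∅) hX p1 p2 x1
  · -- X ∩ Y = ∅, (I \ X) ∩ Y = ∅
    exact m (Q := ∅) hY (by rw [inter_comm]; exact p1) (by rw [inter_comm]; exact p2) y1
  · -- (I \ X) ∩ (I \ Y) = ∅, X ∩ (I \ Y) = ∅
    exact m (Q := ∅) (P := I \ Y) (Z := X) sdiff_subset (by rw [inter_comm]; exact p2)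
      (by rw [inter_comm]; exact p1) y2
  · exact m (Q := ∅) (P := I \ X) (Z := Y) sdiff_subset p2 p1 x2

theorem beta (I : Finset ι) : ∀ r : Finset ι → ℤ, Ax r → 0 ≤ sg (r I) * sm r I ∧
    (Conn r I → 0 < sg (r I) * sm r I) := by
  induction I using Finset.induction_on with
  | empty =>
    intro r h
    have : sm r ∅ = 0 := by
      unfold sm
      rw [powerset_empty, sum_singleton, h.emp, mul_zero]
    rw [this, mul_zero]
    exact ⟨le_rfl, fun hc => absurd hc.1 not_nonempty_empty⟩
  | insert i I hi ih =>
    intro r h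
    have hi01 := h.inc ∅ i
    rw [insert_empty_eq, h.emp] at hi01
    rcases I.eq_empty_or_nonempty with hI | hI
    · subst hI
      have e : sm r (insert i ∅) = - r {i} := by
        unfold sm
        rw [sum_powerset_insert (notMem_empty i), powerset_empty, sum_singleton, sum_singleton,
          insert_empty_eq, h.emp]
        simp
      rw [e, insert_empty_eq]
      have h01 : r {i} = 0 ∨ r {i} = 1 := by
        have := hi01.1
        have := hi01.2
        omega
      rcases h01 with h0 | h0
      · rw [h0]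
        refine ⟨by simp, fun hc => ?_⟩
        have := hc.2.1 i (mem_singleton_self i)
        omega
      · rw [h0]
        have : sg 1 = -1 := by
          unfold sg
          rw [if_neg]
          decide
        rw [this]
        exact ⟨by norm_num, fun _ => by norm_num⟩
    · rw [sm_insert r hi hI]
      have zero : (∀ J ⊆ I, con r i J = r J) → sm r I - sm (con r i) I = 0 := by
        intro hz
        unfold sm
        rw [sub_eq_zero]
        exact sum_congr rfl fun J hJ => by rw [hz J (mem_powerset.1 hJ)]
      have h01 : r {i} = 0 ∨ r {i} = 1 := by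
        have := hi01.1
        have := hi01.2
        omega
      rcases h01 with h0 | h0
      · have : sm r I - sm (con r i) I = 0 := by
          apply zero
          intro J _
          unfold con
          have h1 := h.sub {i} J
          rw [← insert_eq] at h1
          have h2 : 0 ≤ r ({i} ∩ J) := by
            rw [← h.emp]
            exact h.mono (empty_subset _)
          have h3 := (h.inc J i).1
          linarith
        rw [this, mul_zero]
        refine ⟨le_rfl, fun hc => ?_⟩
        have := hc.2.1 i (mem_insert_self _ _)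
        omega
      · have h2 := h.inc I i
        have h3 : r (insert i I) = r I + 1 ∨ r (insert i I) = r I := by
          have := h2.1
          have := h2.2
          omega
        rcases h3 with h3 | h3
        · have : sm r I - sm (con r i) I = 0 := by
            apply zero
            intro J hJ
            unfold con
            have h4 := h.sub (insert i J) I
            rw [insert_union, union_eq_right.2 hJ, insert_inter_of_notMem hi,
              inter_eq_left.2 hJ] at h4
            have h5 := (h.inc J i).2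
            linarith
          rw [this, mul_zero]
          refine ⟨le_rfl, fun hc => ?_⟩
          have h6 : insert i I \ {i} = I := by
            rw [insert_sdiff_of_mem _ (mem_singleton_self i), sdiff_singleton_eq_erase, erase_eq_of_notMem hi]
          have := hc.2.2 {i} (singleton_subset_iff.2 (mem_insert_self _ _))
            (singleton_nonempty i) (by rw [h6]; exact hI)
          rw [h6, h3, h0] at this
          linarith
        · have e1 : con r i I = r I - 1 := by
            unfold con
            rw [h3, h0]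
          have b1 := ih r h
          have b2 := ih (con r i) (h.con i)
          rw [e1, sg_sub_one] at b2
          rw [h3]
          constructor
          · linarith [b1.1, b2.1]
          · intro hc
            rcases conn_split h hi hI h3 hc with hc | hc
            · linarith [b1.2 hc, b2.1]
            · linarith [b1.1, b2.2 hc]

theorem main_beta : Pool.Agent.D0H67.SUB.S_BETA := by
  intro ι _ r h0 h1 h2 I hI h3 h4 h5
  have := (beta I r ⟨h0, h1, h2⟩).2 ⟨hI, h3, h4⟩
  unfold sm at this
  rw [h5, mul_zero] at this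
  exact lt_irrefl _ this

end Pool.Agent.D0H25.SUB
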