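import Mathlib
import Pool.Agent.D0H67.SUB.Stm

/-!
# Project SUB, module FORMS
-/

set_option autoImplicit false

namespace Pool.Agent.D0H25.SUB

open Finset Pool.Agent.W428.MOT Pool.Agent.D0H67.SUB

/-- a linear form which vanishes on `L`, with the value `1` at `v` -/
theorem exists_form {F V : Type} [Field F] [AddCommGroup V] [Module F V] (L : Submodule F V)
    (v : V) (hv : v ∉ L) : ∃ φ : V →ₗ[F] F, φ v = 1 ∧ ∀ x ∈ L, φ x = 0 := by
  obtain ⟨f, hf1, hf2⟩ := Submodule.exists_le_ker_of_notMem hv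
  refine ⟨(f v)⁻¹ • f, ?_, fun x hx => ?_⟩
  · rw [LinearMap.smul_apply, smul_eq_mul, inv_mul_cancel₀ hf1]
  · rw [LinearMap.smul_apply, LinearMap.mem_ker.1 (hf2 hx), smul_zero]

theorem forms : S_FORMS := by
  intro K _ σ S _ _ L v A B hBA hv
  set F := AlgebraicClosure K with hF
  have hex : ∀ s : S, ∃ φ : Pt K σ →ₗ[F] F, s ∈ A → φ v = 1 ∧ ∀ x ∈ L s, φ x = 0 := by
    intro s
    by_cases hs : s ∈ A
    · obtain ⟨φ, h⟩ := exists_form (L s) v (hv s hs)
      exact ⟨φ, fun _ => h⟩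
    · exact ⟨0, fun h => absurd h hs⟩
  choose lam hlam using hex
  let W : Submodule F (Pt K σ) := (B.inf L) ⊓ (A \ B).inf (fun s => Submodule.span F {v} ⊔ L s)
  have memW : ∀ u, u ∈ W ↔ (∀ s ∈ B, u ∈ L s) ∧
      ∀ s ∈ A \ B, u ∈ Submodule.span F {v} ⊔ L s := by
    intro u
    simp only [W, Submodule.mem_inf, Submodule.mem_finsetInf]
  have dec : ∀ s ∈ A, ∀ u, u ∈ Submodule.span F {v} ⊔ L s → u - lam s u • v ∈ L s := by
    intro s hs u hu
    obtain ⟨y, hy, z, hz, rfl⟩ := Submodule.mem_sup.1 hu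
    obtain ⟨a, rfl⟩ := Submodule.mem_span_singleton.1 hy
    rw [map_add, map_smul, (hlam s hs).1, (hlam s hs).2 z hz, smul_eq_mul, mul_one, add_zero,
      add_sub_cancel_left]
    exact hz
  refine ⟨W, lam, ?_, ?_⟩
  · ext u
    simp only [Pool.Agent.D0H67.SUB.cmp, Set.mem_ofPred_eq]
    rw [memW]
    constructor
    · rintro ⟨h1, h2⟩
      refine ⟨⟨h1, fun s hs => ?_⟩, fun s hs => ?_⟩
      · obtain ⟨a, _, ha⟩ := h2 s hs
        have : u = a • v + (u - a • v) := by abel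
        rw [this]
        exact Submodule.add_mem_sup (Submodule.smul_mem _ a (Submodule.mem_span_singleton_self v)) ha
      · obtain ⟨a, ha0, ha⟩ := h2 s hs
        have hsA := (mem_sdiff.1 hs).1
        have h3 := (hlam s hsA).2 _ ha
        rw [map_sub, map_smul, (hlam s hsA).1, smul_eq_mul, mul_one, sub_eq_zero] at h3
        rw [h3]
        exact ha0
    · rintro ⟨⟨h1, h2⟩, h3⟩
      exact ⟨h1, fun s hs => ⟨lam s u, h3 s hs, dec s (mem_sdiff.1 hs).1 u (h2 s hs)⟩⟩
  · intro hA hB hconn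
    subst hB
    have hvW : v ∈ W := by
      rw [memW]
      refine ⟨fun s hs => absurd hs (notMem_empty s), fun s _ => ?_⟩
      exact Submodule.mem_sup_left (Submodule.mem_span_singleton_self v)
    have hker : ∀ J ⊆ A, ∀ u, u ∈ W ⊓ (J.inf fun i => LinearMap.ker (lam i)) → u ∈ J.inf L := by
      intro J hJ u hu
      rw [Submodule.mem_inf, memW, Submodule.mem_finsetInf] at hu
      rw [Submodule.mem_finsetInf]
      intro s hs
      have h1 := dec s (hJ hs) u (hu.1.2 s (mem_sdiff.2 ⟨hJ hs, notMem_empty s⟩))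
      have h2 := LinearMap.mem_ker.1 (hu.2 s hs)
      rwa [h2, zero_smul, sub_zero] at h1
    refine ⟨hA, fun i hi => ⟨v, hvW, ?_⟩, fun J hJ hJ1 hJ2 hcon => ?_⟩
    · rw [(hlam i hi).1]
      exact one_ne_zero
    · rw [← hcon] at hvW
      obtain ⟨y, hy, z, hz, hyz⟩ := Submodule.mem_sup.1 hvW
      refine hconn J (A \ J) hJ1 hJ2 disjoint_sdiff (union_sdiff_of_subset hJ) ?_
      rw [← hyz]
      exact Submodule.add_mem_sup (hker J hJ y hy) (hker (A \ J) sdiff_subset z hz)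

end Pool.Agent.D0H25.SUB
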